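import Pool.Agent.Helper91.GU.StB

/-!
# Project GU, module B4: lemma T
-/

set_option autoImplicit false

namespace Pool.Agent.Helper85.GU

open Pool.Agent.Helper91.GU Polynomial

universe u

theorem lowU_map {A B : Type u} [CommRing A] [CommRing B] {r : ℕ} (φ : A →+* B) (y : Fin r → A) :
    (lowU y).map φ = lowU (fun j => φ (y j)) := by
  ext i j
  rcases i with i | i <;> rcases j with j | j <;>
    simp [lowU, Matrix.fromBlocks, Matrix.one_apply, apply_ite φ]

theorem upV_map {A B : Type u} [CommRing A] [CommRing B] {r : ℕ} (φ : A →+* B) (y : Fin r → A) :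
    (upV y).map φ = upV (fun j => φ (y j)) := by
  ext i j
  rcases i with i | i <;> rcases j with j | j <;>
    simp [upV, Matrix.fromBlocks, Matrix.one_apply, apply_ite φ]

theorem lowU_det {A : Type u} [CommRing A] {r : ℕ} (y : Fin r → A) : (lowU y).det = 1 := by
  unfold lowU
  rw [Matrix.det_fromBlocks_zero₁₂]
  simp

theorem upV_det {A : Type u} [CommRing A] {r : ℕ} (y : Fin r → A) : (upV y).det = 1 := by
  unfold upV
  rw [Matrix.det_fromBlocks_zero₂₁]
  simp

theorem lowU_mul {A : Type u} [CommRing A] {r : ℕ} (y z : Fin r → A) :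
    lowU y * lowU z = lowU (fun j => y j + z j) := by
  unfold lowU
  rw [Matrix.fromBlocks_multiply]
  congr 1
  · simp
  · simp
  · ext i j
    simp [add_comm]
  · simp

theorem upV_mul {A : Type u} [CommRing A] {r : ℕ} (y z : Fin r → A) :
    upV y * upV z = upV (fun j => y j + z j) := by
  unfold upV
  rw [Matrix.fromBlocks_multiply]
  congr 1
  · simp
  · ext i j
    simp [add_comm]
  · simp
  · simp

theorem lowU_zero {A : Type u} [CommRing A] {r : ℕ} : lowU (fun _ : Fin r => (0 : A)) = 1 := by
  ext i j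
  rcases i with i | i <;> rcases j with j | j <;> simp [lowU, Matrix.fromBlocks, Matrix.one_apply]

theorem upV_zero {A : Type u} [CommRing A] {r : ℕ} : upV (fun _ : Fin r => (0 : A)) = 1 := by
  ext i j
  rcases i with i | i <;> rcases j with j | j <;> simp [upV, Matrix.fromBlocks, Matrix.one_apply]

theorem row_lowU {A : Type u} [CommRing A] {r : ℕ} (a : A) (c y : Fin r → A) :
    Matrix.vecMul (row a c) (lowU y) = row (a - c ⬝ᵥ y) c := by
  ext j
  rcases j with j | j
  · simp [Matrix.vecMul, dotProduct, lowU, row, sub_eq_add_neg]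
  · simp [Matrix.vecMul, dotProduct, lowU, row, Matrix.one_apply]

theorem row_upV {A : Type u} [CommRing A] {r : ℕ} (a : A) (c x : Fin r → A) :
    Matrix.vecMul (row a c) (upV x) = row a (fun j => c j - a * x j) := by
  ext j
  rcases j with j | j
  · simp [Matrix.vecMul, dotProduct, upV, row, Matrix.one_apply]
  · simp [Matrix.vecMul, dotProduct, upV, row, Matrix.one_apply]
    ring

theorem row_diag {A : Type u} [CommRing A] {r : ℕ} (a w : A) (c : Fin r → A)
    (D : Matrix (Fin r) (Fin r) A) :
    Matrix.vecMul (row a c) (Matrix.fromBlocks (fun _ _ => w) 0 0 D)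
      = row (a * w) (Matrix.vecMul c D) := by
  ext j
  rcases j with j | j
  · simp [Matrix.vecMul, dotProduct, row]
  · simp [Matrix.vecMul, dotProduct, row]

theorem row_low {A : Type u} [CommRing A] {r : ℕ} (x : Fin r → A)
    (D : Matrix (Fin r) (Fin r) A) :
    Matrix.vecMul (row 1 (0 : Fin r → A)) (Matrix.fromBlocks 1 0 (fun i _ => x i) D)
      = row 1 0 := by
  ext j
  rcases j with j | j
  · simp [Matrix.vecMul, dotProduct, row]
  · simp [Matrix.vecMul, dotProduct, row]

theorem mp_row {A B : Type u} [CommRing A] [CommRing B] (φ : A →+* B) {r : ℕ} (a : A)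
    (c : Fin r → A) : mp φ (row a c) = row (φ a) (mp φ c) := by
  ext j
  rcases j with j | j <;> simp [mp, row]

theorem mem_idl {A : Type u} [CommRing A] {r : ℕ} {c : Fin r → A} {x : A} (h : x ∈ idl c) :
    ∃ y : Fin r → A, x = c ⬝ᵥ y := by
  unfold idl at h
  rw [Ideal.mem_span_range_iff_exists_fun] at h
  obtain ⟨y, hy⟩ := h
  refine ⟨y, ?_⟩
  rw [← hy]
  exact Finset.sum_congr rfl fun i _ => mul_comm _ _

/-- the central block identity -/
theorem block_id {A : Type u} [CommRing A] {r : ℕ} (w w' : A) (hw : w * w' = 1)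
    (c t : Fin r → A) (ht : c ⬝ᵥ t = w - 1) (E : Matrix (Fin r) (Fin r) A) :
    (Matrix.fromBlocks (fun _ _ => w) 0 0 E : Matrix (Unit ⊕ Fin r) (Unit ⊕ Fin r) A)
      * (upV (fun j => - (w' * c j)) * (lowU t * upV c))
      = Matrix.fromBlocks 1 0 (fun i _ => - (Matrix.mulVec E t) i) (E * theta c t) := by
  have e1 : lowU t * upV c = Matrix.fromBlocks (1 : Matrix Unit Unit A) (fun _ j => - c j)
      (fun i _ => - t i) (theta c t) := by
    unfold lowU upV theta
    rw [Matrix.fromBlocks_multiply]
    congr 1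
    · simp
    · simp
    · simp
    · ext i j
      simp [Matrix.mul_apply, Matrix.vecMulVec, add_comm]
  have e2 : upV (fun j => - (w' * c j)) * (lowU t * upV c)
      = Matrix.fromBlocks (fun _ _ => w') 0 (fun i _ => - t i) (theta c t) := by
    rw [e1]
    unfold upV
    rw [Matrix.fromBlocks_multiply]
    congr 1
    · ext i j
      simp only [Matrix.mul_one, Matrix.add_apply, Matrix.mul_apply, Matrix.one_apply, neg_neg,
        mul_neg, Finset.sum_neg_distrib]
      have h1 : ∑ x, w' * c x * t x = w' * (c ⬝ᵥ t) := by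
        simp only [dotProduct, Finset.mul_sum]
        exact Finset.sum_congr rfl fun x _ => by ring
      rw [h1, ht]
      have : i = j := Subsingleton.elim _ _
      simp only [this, if_true]
      linear_combination (-1 : A) * hw
    · ext i j
      simp only [Matrix.one_mul, Matrix.add_apply, Matrix.mul_apply, theta, neg_neg,
        Matrix.zero_apply, Matrix.one_apply, Matrix.vecMulVec_apply]
      have h1 : ∑ x, w' * c x * ((if x = j then 1 else 0) + t x * c j)
          = w' * c j + w' * (c ⬝ᵥ t) * c j := by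
        simp only [mul_add, Finset.sum_add_distrib, dotProduct, Finset.mul_sum, Finset.sum_mul]
        congr 1
        · simp
        · exact Finset.sum_congr rfl fun x _ => by ring
      rw [h1, ht]
      linear_combination c j * hw
    · simp
    · simp
  rw [e2, Matrix.fromBlocks_multiply]
  congr 1
  · ext i j
    have : i = j := Subsingleton.elim _ _
    simp [Matrix.mul_apply, this, hw]
  · simp
  · ext i j
    simp [Matrix.mul_apply, Matrix.mulVec, dotProduct]
  · simp

theorem hB4 (hA4 : StA4.{u}) (hB0 : StB0.{u}) : StB4.{u} := by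
  intro A Af Ai Afi _ _ _ _ _ _ _ _ _ f i hsq r a ω c haf hωf hωi hsplit
  haveI := hsq.towf
  haveI := hsq.towi
  obtain ⟨y, hy⟩ := mem_idl haf
  obtain ⟨z, hz⟩ := mem_idl hωi
  obtain ⟨wu, hwu⟩ := hωf
  set ω' : Af := ((wu⁻¹ : Afˣ) : Af) with hω'
  have hww : algebraMap A Af ω * ω' = 1 := by rw [← hwu, hω']; exact Units.mul_inv wu
  -- the data over `Afi`
  set cF : Fin r → Afi := mp (algebraMap A Afi) c with hcF
  set yF : Fin r → Afi := fun j => algebraMap Af Afi (y j) with hyF
  set zF : Fin r → Afi := fun j => algebraMap Ai Afi (z j) with hzF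
  set aF : Afi := algebraMap A Afi a with haF
  set wF : Afi := algebraMap A Afi ω with hwF
  set wF' : Afi := algebraMap Af Afi ω' with hwF'
  have hf : ∀ x : A, algebraMap Af Afi (algebraMap A Af x) = algebraMap A Afi x := fun x =>
    (IsScalarTower.algebraMap_apply A Af Afi x).symm
  have hi : ∀ x : A, algebraMap Ai Afi (algebraMap A Ai x) = algebraMap A Afi x := fun x =>
    (IsScalarTower.algebraMap_apply A Ai Afi x).symm
  have hwwF : wF * wF' = 1 := by
    rw [hwF, hwF', ← hf, ← map_mul, hww, map_one]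
  have hcy : cF ⬝ᵥ yF = aF - 1 := by
    have h1 := congrArg (algebraMap Af Afi) hy
    rw [map_sub, map_one, hf] at h1
    rw [haF, h1]
    simp only [dotProduct, map_sum, map_mul, hcF, hyF, mp, hf]
  have hcz : cF ⬝ᵥ zF = wF - 1 := by
    have h1 := congrArg (algebraMap Ai Afi) hz
    rw [map_sub, map_one, hi] at h1
    rw [hwF, h1]
    simp only [dotProduct, map_sum, map_mul, hcF, hzF, mp, hi]
  set t : Fin r → Afi := fun j => -(wF * yF j) + aF * zF j + yF j with ht
  have hct : cF ⬝ᵥ t = wF - 1 := by
    have h1 : cF ⬝ᵥ t = -(wF * (cF ⬝ᵥ yF)) + aF * (cF ⬝ᵥ zF) + cF ⬝ᵥ yF := by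
      simp only [dotProduct, ht, Finset.mul_sum, ← Finset.sum_neg_distrib,
        ← Finset.sum_add_distrib]
      exact Finset.sum_congr rfl fun j _ => by ring
    rw [h1, hcy, hcz]
    ring
  obtain ⟨δ, k, hδ, hk, hθ⟩ := hsplit t hct
  obtain ⟨P, hPu, hP0, hP1⟩ := hk
  -- the matrices
  set cf : Fin r → Af := mp (algebraMap A Af) c with hcf
  set gi : Matrix (Unit ⊕ Fin r) (Unit ⊕ Fin r) Ai :=
    lowU (fun j => -(algebraMap A Ai a * z j)) with hgi
  set gf : Matrix (Unit ⊕ Fin r) (Unit ⊕ Fin r) Af :=
    lowU y * upV cf * (Matrix.fromBlocks (fun _ _ => algebraMap A Af ω) 0 0 δ⁻¹ *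
      (upV (fun j => -(ω' * cf j)) * lowU (fun j => -(algebraMap A Af ω * y j)))) with hgf
  set x : Fin r → Afi := fun j => -(Matrix.mulVec (δ⁻¹.map (algebraMap Af Afi)) t) j with hx
  set h : Matrix (Unit ⊕ Fin r) (Unit ⊕ Fin r) Afi[X] :=
    lowU (fun j => C (yF j)) * upV (fun j => C (cF j)) *
      (Matrix.fromBlocks 1 0 (fun i _ => C (x i) * X) P) *
      (upV (fun j => -C (cF j)) * lowU (fun j => -C (yF j))) with hh
  have hev : ∀ (b : Afi) (Q R : Matrix (Unit ⊕ Fin r) (Unit ⊕ Fin r) Afi[X]),
      (Q * R).map (eval b) = Q.map (eval b) * R.map (eval b) := by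
    intro b Q R
    have := Matrix.map_mul (L := Q) (M := R) (f := evalRingHom b)
    simpa [Polynomial.coe_evalRingHom] using this
  have hlow : ∀ (b : Afi) (q : Fin r → Afi[X]), (lowU q).map (eval b) = lowU (fun j => (q j).eval b) := by
    intro b q
    have := lowU_map (evalRingHom b) q
    simpa [Polynomial.coe_evalRingHom] using this
  have hup : ∀ (b : Afi) (q : Fin r → Afi[X]), (upV q).map (eval b) = upV (fun j => (q j).eval b) := by
    intro b q
    have := upV_map (evalRingHom b) q
    simpa [Polynomial.coe_evalRingHom] using this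
  have hmid : ∀ b : Afi, (Matrix.fromBlocks (1 : Matrix Unit Unit Afi[X]) 0
      (fun i _ => C (x i) * X) P).map (eval b)
      = Matrix.fromBlocks 1 0 (fun i _ => x i * b) (P.map (eval b)) := by
    intro b
    ext p q
    rcases p with p | p <;> rcases q with q | q <;> simp [Matrix.fromBlocks, Matrix.one_apply]
  have hT : (lowU yF * upV cF) * (upV (fun j => -cF j) * lowU (fun j => -yF j)) = 1 := by
    rw [Matrix.mul_assoc, ← Matrix.mul_assoc (upV cF), upV_mul]
    simp only [add_neg_cancel]
    rw [upV_zero, Matrix.one_mul, lowU_mul]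
    simp only [add_neg_cancel]
    exact lowU_zero
  have hdet1 : gi.det = 1 := lowU_det _
  have hdetf : IsUnit gf.det := by
    rw [hgf, Matrix.det_mul, Matrix.det_mul, Matrix.det_mul, Matrix.det_mul, lowU_det, upV_det,
      upV_det, lowU_det, Matrix.det_fromBlocks_zero₁₂, Matrix.det_nonsing_inv]
    simp only [one_mul, mul_one]
    refine IsUnit.mul ?_ ?_
    · rw [Matrix.det_unique]
      exact ⟨wu, hwu⟩
    · rw [Ring.inverse_of_isUnit hδ]
      exact Units.isUnit _
  have hdeth : IsUnit h.det := by
    rw [hh, Matrix.det_mul, Matrix.det_mul, Matrix.det_mul, Matrix.det_mul, lowU_det, upV_det,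
      upV_det, lowU_det, Matrix.det_fromBlocks_zero₁₂]
    simpa using hPu
  refine hA4 A Af Ai Afi f i hsq (Unit ⊕ Fin r) (row a c) (row (a * ω) c) gf gi h hdetf
    (by rw [hdet1]; exact isUnit_one) hdeth ?_ ?_ ?_ ?_ ?_
  · -- over `Af`
    rw [mp_row, mp_row, hgf]
    simp only [← Matrix.vecMul_vecMul]
    rw [row_lowU, row_upV, row_diag, row_upV, row_lowU]
    have h1 : algebraMap A Af a - mp (algebraMap A Af) c ⬝ᵥ y = 1 := by
      rw [← hy]; ring
    rw [h1]
    have h2 : Matrix.vecMul (fun j => mp (algebraMap A Af) c j - 1 * cf j) δ⁻¹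
        = (0 : Fin r → Af) := by
      have : (fun j => mp (algebraMap A Af) c j - 1 * cf j) = 0 := by
        ext j
        simp [hcf]
      rw [this, Matrix.zero_vecMul]
    rw [h2]
    have h3 : (fun j => (0 : Fin r → Af) j - 1 * algebraMap A Af ω * -(ω' * cf j)) = cf := by
      ext j
      simp only [Pi.zero_apply]
      linear_combination cf j * hww
    rw [h3]
    have h4 : cf ⬝ᵥ (fun j => -(algebraMap A Af ω * y j))
        = -(algebraMap A Af ω * (algebraMap A Af a - 1)) := by
      rw [hy]
      simp only [dotProduct, Finset.mul_sum, ← Finset.sum_neg_distrib]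
      exact Finset.sum_congr rfl fun j _ => by ring
    rw [h4, map_mul]
    congr 1
    ring
  · -- over `Ai`
    rw [mp_row, mp_row, hgi, row_lowU]
    have h4 : mp (algebraMap A Ai) c ⬝ᵥ (fun j => -(algebraMap A Ai a * z j))
        = -(algebraMap A Ai a * (algebraMap A Ai ω - 1)) := by
      rw [hz]
      simp only [dotProduct, Finset.mul_sum, ← Finset.sum_neg_distrib]
      exact Finset.sum_congr rfl fun j _ => by ring
    rw [h4, map_mul]
    congr 1
    ring
  · -- fixes the row
    have hrow : (fun j => C (algebraMap A Afi (row a c j)))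
        = row (C aF) (fun j => C (cF j)) := by
      ext1 j
      rcases j with j | j <;> simp [row, haF, hcF, mp]
    rw [hrow, hh]
    simp only [← Matrix.vecMul_vecMul]
    rw [row_lowU, row_upV]
    have h1 : C aF - (fun j => C (cF j)) ⬝ᵥ (fun j => C (yF j)) = (1 : Afi[X]) := by
      have : (fun j => C (cF j)) ⬝ᵥ (fun j => C (yF j)) = C (cF ⬝ᵥ yF) := by
        simp only [dotProduct, map_sum, map_mul]
      rw [this, hcy, map_sub, map_one]
      ring
    rw [h1]
    have h2 : (fun j => C (cF j) - 1 * C (cF j)) = (0 : Fin r → Afi[X]) := by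
      ext1 j
      simp
    rw [h2, row_low (fun i => C (x i) * X) P, row_upV, row_lowU]
    have h3 : (fun j => (0 : Fin r → Afi[X]) j - 1 * -C (cF j)) = fun j => C (cF j) := by
      ext1 j
      simp
    rw [h3]
    congr 1
    have : (fun j => C (cF j)) ⬝ᵥ (fun j => -C (yF j)) = -C (cF ⬝ᵥ yF) := by
      simp only [dotProduct, map_sum, map_mul, ← Finset.sum_neg_distrib]
      exact Finset.sum_congr rfl fun j _ => by ring
    rw [this, hcy, map_sub, map_one]
    ring
  · rw [hh, hev, hev, hev, hev, hlow, hup, hmid, hup, hlow, hP0]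
    simp only [eval_C, eval_neg, mul_zero]
    have h1 : (Matrix.fromBlocks 1 0 (fun (i : Fin r) (_ : Unit) => (0 : Afi)) 1
        : Matrix (Unit ⊕ Fin r) (Unit ⊕ Fin r) Afi) = 1 := Matrix.fromBlocks_one
    rw [h1, Matrix.mul_one]
    exact hT
  · rw [hh, hev, hev, hev, hev, hlow, hup, hmid, hup, hlow, hP1]
    simp only [eval_C, eval_neg, mul_one]
    have hgfm : gf.map (algebraMap Af Afi) = lowU yF * upV cF *
        (Matrix.fromBlocks (fun _ _ => wF) 0 0 (δ⁻¹.map (algebraMap Af Afi)) *
          (upV (fun j => -(wF' * cF j)) * lowU (fun j => -(wF * yF j)))) := by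
      rw [hgf, Matrix.map_mul, Matrix.map_mul, Matrix.map_mul, Matrix.map_mul, lowU_map, upV_map,
        upV_map, lowU_map, Matrix.fromBlocks_map]
      congr 2
      · congr 1
        ext1 j
        simp [hcf, hcF, mp, hf]
      · congr 1
        · ext p q
          simp [hwF, hf]
        · ext p q
          simp
        · ext p q
          simp
      · congr 1
        · congr 1
          ext1 j
          simp [hcf, hcF, mp, hf, hwF']
        · congr 1
          ext1 j
          simp [hwF, hf, hyF]
    have hgim : gi.map (algebraMap Ai Afi) = lowU (fun j => -(aF * zF j)) := by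
      rw [hgi, lowU_map]
      congr 1
      ext1 j
      simp [haF, hi, hzF]
    have hkey : (Matrix.fromBlocks 1 0 (fun i _ => x i) k
        : Matrix (Unit ⊕ Fin r) (Unit ⊕ Fin r) Afi)
        = Matrix.fromBlocks (fun _ _ => wF) 0 0 (δ⁻¹.map (algebraMap Af Afi)) *
          (upV (fun j => -(wF' * cF j)) * (lowU t * upV cF)) := by
      rw [block_id wF wF' hwwF cF t hct (δ⁻¹.map (algebraMap Af Afi))]
      congr 1
      rw [hθ, ← Matrix.mul_assoc, ← Matrix.map_mul, Matrix.nonsing_inv_mul _ hδ,
        Matrix.map_one _ (map_zero _) (map_one _), Matrix.one_mul]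
    have ht2 : lowU t * upV cF * (upV (fun j => -cF j) * (lowU (fun j => -yF j) *
        lowU (fun j => -(aF * zF j)))) = lowU (fun j => -(wF * yF j)) := by
      rw [Matrix.mul_assoc, ← Matrix.mul_assoc (upV cF), upV_mul]
      simp only [add_neg_cancel]
      rw [upV_zero, Matrix.one_mul, lowU_mul, lowU_mul]
      congr 1
      ext1 j
      simp only [ht]
      ring
    rw [hkey, hgim, hgfm]
    have e : ∀ (L F V T U W Z : Matrix (Unit ⊕ Fin r) (Unit ⊕ Fin r) Afi),
        L * (F * (V * T)) * (U * W) * Z = L * (F * (V * (T * (U * (W * Z))))) := by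
      intro L F V T U W Z
      simp only [Matrix.mul_assoc]
    rw [e, ht2]

end Pool.Agent.Helper85.GU
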