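import Pool.Agent.Helper91.GU.StH

/-!
# Project GU: Theorem GU (final assembly)
-/

set_option autoImplicit false

namespace Pool.Agent.Helper85.GU

open Polynomial Pool.Agent.Helper91.GU

universe u

/-- the reindexing `Fin (r+1) ≃ Unit ⊕ Fin r` -/
def eqv (r : ℕ) : Fin (r + 1) ≃ Unit ⊕ Fin r where
  toFun := Fin.cases (Sum.inl ()) Sum.inr
  invFun := Sum.elim (fun _ => 0) Fin.succ
  left_inv := by
    intro j
    refine Fin.cases ?_ (fun j => ?_) j <;> simp
  right_inv := by
    rintro (⟨⟩ | j) <;> simp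

/-- the first row of an invertible matrix: completion with determinant one -/
theorem completion {A : Type u} [CommRing A] {r : ℕ} (a : A) (c : Fin (r + 1) → A)
    (h : REq (row a c) (row 1 0)) :
    ∃ M : Matrix (Unit ⊕ Fin (r + 1)) (Unit ⊕ Fin (r + 1)) A, M.det = 1 ∧
      M (Sum.inl ()) = row a c := by
  obtain ⟨g, hg, hv⟩ := h
  have h1 : Matrix.vecMul (row (1 : A) (0 : Fin (r + 1) → A)) g⁻¹ = row a c := by
    rw [← hv, Matrix.vecMul_vecMul, Matrix.mul_nonsing_inv g hg, Matrix.vecMul_one]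
  have h2 : g⁻¹ (Sum.inl ()) = row a c := by
    rw [← h1]
    funext j
    simp [Matrix.vecMul, dotProduct, row]
  refine ⟨Matrix.updateRow g⁻¹ (Sum.inr 0) (g.det • g⁻¹ (Sum.inr 0)), ?_, ?_⟩
  · rw [Matrix.det_updateRow_smul, Matrix.updateRow_eq_self, ← Matrix.det_mul,
      Matrix.mul_nonsing_inv g hg, Matrix.det_one]
  · rw [Matrix.updateRow_ne (by simp)]
    exact h2

theorem hGU (hH3 : StH3.{u}) (hH5 : StH5.{u}) (hB7 : StB7.{u}) : StGU.{u} := by
  intro R _ _ _ d n hd hdim hnd hfac A hgr v w hvw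
  obtain ⟨s, rfl⟩ : ∃ s, d = s + 1 := ⟨d - 1, by omega⟩
  classical
  obtain ⟨A', hA', hfg, hgr', hmem⟩ := hH3 R n A hgr
    (Finset.univ.image (fun j => (v j : MvPolynomial (Fin n) R)) ∪
      Finset.univ.image (fun j => (w j : MvPolynomial (Fin n) R))) (by
      intro f hf
      rw [Finset.mem_union, Finset.mem_image, Finset.mem_image] at hf
      rcases hf with ⟨j, -, rfl⟩ | ⟨j, -, rfl⟩
      · exact (v j).2
      · exact (w j).2)
  have hv : ∀ j, (v j : MvPolynomial (Fin n) R) ∈ A' := fun j => hmem _ (by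
    rw [Finset.mem_union, Finset.mem_image]
    exact Or.inl ⟨j, Finset.mem_univ _, rfl⟩)
  have hw : ∀ j, (w j : MvPolynomial (Fin n) R) ∈ A' := fun j => hmem _ (by
    rw [Finset.mem_union, Finset.mem_image, Finset.mem_image]
    exact Or.inr ⟨j, Finset.mem_univ _, rfl⟩)
  have hUm : Um (row (⟨v 0, hv 0⟩ : A') (fun j : Fin (s + 1) => (⟨v j.succ, hv j.succ⟩ : A'))) := by
    refine ⟨row (⟨w 0, hw 0⟩ : A') (fun j : Fin (s + 1) => (⟨w j.succ, hw j.succ⟩ : A')), ?_⟩
    apply Subtype.ext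
    have h0 : ((∑ j, v j * w j : A) : MvPolynomial (Fin n) R) = ((1 : A) : MvPolynomial (Fin n) R) :=
      congrArg _ hvw
    rw [Fin.sum_univ_succ] at h0
    simp only [row, dotProduct, Fintype.sum_sum_type, Sum.elim_inl, Sum.elim_inr,
      Finset.univ_unique, Finset.sum_singleton]
    push_cast at h0 ⊢
    exact h0
  have h5 := hH5 R (s + 1) n s (by omega) hdim (by omega) hfac A' hfg hgr' _ _ hUm
  have h6 := ((hB7 A' A (Subalgebra.inclusion hA').toRingHom).1 (Unit ⊕ Fin (s + 1))).2.2.2.2.2.1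
    _ _ h5
  have e1 : mp (Subalgebra.inclusion hA').toRingHom
      (row (⟨v 0, hv 0⟩ : A') (fun j : Fin (s + 1) => (⟨v j.succ, hv j.succ⟩ : A'))) =
      row (v 0) (fun j : Fin (s + 1) => v j.succ) := by
    funext j
    rcases j with j | j <;> rfl
  have e2 : mp (Subalgebra.inclusion hA').toRingHom (row (1 : A') (0 : Fin (s + 1) → A')) =
      row (1 : A) 0 := by
    funext j
    rcases j with j | j
    · exact map_one _
    · exact map_zero _
  rw [e1, e2] at h6
  obtain ⟨M, hM, hM0⟩ := completion _ _ h6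
  refine ⟨M.submatrix (eqv (s + 1)) (eqv (s + 1)), ?_, ?_⟩
  · rw [Matrix.det_submatrix_equiv_self]
    exact hM
  · intro j
    rw [Matrix.submatrix_apply]
    have e3 : eqv (s + 1) 0 = Sum.inl () := rfl
    rw [e3, hM0]
    refine Fin.cases ?_ (fun j => ?_) j
    · rfl
    · rfl

end Pool.Agent.Helper85.GU
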